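import Mathlib
import Pool.Agent.U581.LB.Stm3
import Pool.Agent.H383.Reps

/-!
Package JAC of project LB (helper688): Jacobi's two square theorem.
-/

set_option autoImplicit false

open Set

namespace Pool.Agent.U688.LB

open Pool.Agent.H383.Gauss

/-- the character modulo 4 as an integer -/
def ch (n : ℕ) : ℤ := ZMod.χ₄ (n : ZMod 4)

lemma ch_mul (a b : ℕ) : ch (a * b) = ch a * ch b := by
  unfold ch
  push_cast
  exact map_mul _ _ _

/-- the sum over the divisors -/
def SS (n : ℕ) : ℤ := ∑ d ∈ n.divisors, ch d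

lemma SS_rec {p m : ℕ} (hp : p.Prime) (hm : 1 ≤ m) :
    SS (p * m) = (1 + ch p) * SS m - ch p * (if p ∣ m then SS (m / p) else 0) := by
  classical
  have hp0 : p ≠ 0 := hp.ne_zero
  have hm0 : m ≠ 0 := by omega
  have hinj : ∀ s : Finset ℕ, Set.InjOn (fun d => p * d) s := fun s a _ b _ h =>
    Nat.eq_of_mul_eq_mul_left hp.pos h
  have h1 : (p * m).divisors = m.divisors ∪ m.divisors.image (fun d => p * d) := by
    ext d
    simp only [Nat.mem_divisors, Finset.mem_union, Finset.mem_image]
    constructor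
    · rintro ⟨hd, -⟩
      by_cases hpd : p ∣ d
      · obtain ⟨e, rfl⟩ := hpd
        right
        exact ⟨e, ⟨Nat.dvd_of_mul_dvd_mul_left hp.pos hd, hm0⟩, rfl⟩
      · left
        exact ⟨(Nat.Coprime.dvd_mul_left ((Nat.Prime.coprime_iff_not_dvd hp).2 hpd).symm).1 hd, hm0⟩
    · rintro (⟨hd, -⟩ | ⟨e, ⟨he, -⟩, rfl⟩)
      · exact ⟨hd.mul_left p, mul_ne_zero hp0 hm0⟩
      · exact ⟨mul_dvd_mul_left p he, mul_ne_zero hp0 hm0⟩
  have h2 : m.divisors ∩ m.divisors.image (fun d => p * d) =
      if p ∣ m then (m / p).divisors.image (fun d => p * d) else ∅ := by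
    ext d
    simp only [Finset.mem_inter, Nat.mem_divisors, Finset.mem_image]
    split_ifs with h
    · obtain ⟨k, rfl⟩ := h
      rw [Nat.mul_div_cancel_left k hp.pos]
      have hk0 : k ≠ 0 := by rintro rfl; simp at hm0
      simp only [Finset.mem_image, Nat.mem_divisors]
      constructor
      · rintro ⟨⟨hd, -⟩, e, -, rfl⟩
        exact ⟨e, ⟨Nat.dvd_of_mul_dvd_mul_left hp.pos hd, hk0⟩, rfl⟩
      · rintro ⟨e, ⟨he, -⟩, rfl⟩
        exact ⟨⟨mul_dvd_mul_left p he, hm0⟩, e, ⟨he.mul_left p, hm0⟩, rfl⟩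
    · simp only [Finset.notMem_empty, iff_false]
      rintro ⟨⟨hd, -⟩, e, -, rfl⟩
      exact h ((dvd_mul_right p e).trans hd)
  have h3 := Finset.sum_union_inter (s₁ := m.divisors) (s₂ := m.divisors.image (fun d => p * d)) (f := ch)
  rw [← h1, h2] at h3
  have h4 : ∀ s : Finset ℕ, ∑ d ∈ s.image (fun d => p * d), ch d = ch p * ∑ d ∈ s, ch d := by
    intro s
    rw [Finset.sum_image (hinj s), Finset.mul_sum]
    exact Finset.sum_congr rfl fun d _ => ch_mul p d
  rw [h4] at h3
  unfold SS
  split_ifs at h3 ⊢ with h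
  · rw [h4] at h3
    linarith
  · simp only [Finset.sum_empty] at h3
    linarith

lemma img_ncard (a : GaussianInt) (ha : a ≠ 0) (s : Set GaussianInt) :
    ((fun w => a * w) '' s).ncard = s.ncard :=
  Set.ncard_image_of_injective _ (fun _ _ h => mul_left_cancel₀ ha h)

lemma A_one : (A 1).ncard = 4 := by
  have : A 1 = (({⟨1,0⟩, ⟨-1,0⟩, ⟨0,1⟩, ⟨0,-1⟩} : Finset GaussianInt) : Set GaussianInt) := by
    ext z
    constructor
    · intro hz
      rw [mem_A, norm_eq, Nat.cast_one] at hz
      obtain ⟨x, y⟩ := z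
      simp only at hz
      have hx : -1 ≤ x ∧ x ≤ 1 := by constructor <;> nlinarith [sq_nonneg y, sq_nonneg (x-1), sq_nonneg (x+1)]
      have hy : -1 ≤ y ∧ y ≤ 1 := by constructor <;> nlinarith [sq_nonneg x, sq_nonneg (y-1), sq_nonneg (y+1)]
      obtain ⟨hx1, hx2⟩ := hx
      obtain ⟨hy1, hy2⟩ := hy
      interval_cases x <;> interval_cases y <;> simp at hz ⊢
    · intro hz
      simp only [Finset.coe_insert, Finset.coe_singleton, Set.mem_insert_iff, Set.mem_singleton_iff] at hz
      rw [mem_A, norm_eq]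
      rcases hz with rfl | rfl | rfl | rfl <;> norm_num
  rw [this, ncard_coe_finset]
  decide

lemma A_two (m : ℕ) : (A (2 * m)).ncard = (A m).ncard := by
  have h1 : A (2 * m) = (fun w => (⟨1, 1⟩ : GaussianInt) * w) '' A m := by
    ext z
    constructor
    · intro hz
      rw [mem_A, norm_eq] at hz
      obtain ⟨x, y⟩ := z
      simp only at hz
      push_cast at hz
      have hpar : (x + y) % 2 = 0 := by
        have h2 : (x ^ 2 + y ^ 2) % 2 = 0 := by omega
        rcases Int.emod_two_eq_zero_or_one x with hx | hx <;>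
        rcases Int.emod_two_eq_zero_or_one y with hy | hy <;>
        simp [pow_two, Int.add_emod, Int.mul_emod, hx, hy] at h2 ⊢
      obtain ⟨u, hu⟩ : ∃ u, x + y = 2 * u := ⟨(x + y) / 2, by omega⟩
      refine ⟨⟨u, u - x⟩, ?_, ?_⟩
      · rw [mem_A, norm_eq]
        simp only
        have hy : y = 2 * u - x := by omega
        subst hy
        nlinarith
      · have hy : y = 2 * u - x := by omega
        subst hy
        ext <;> simp <;> ring
    · rintro ⟨w, hw, rfl⟩
      rw [mem_A] at hw ⊢
      rw [Zsqrtd.norm_mul, hw]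
      push_cast
      congr 1
  rw [h1, img_ncard]
  intro h
  have := congrArg Zsqrtd.re h
  simp at this

lemma p_mul_norm {p m : ℕ} (hp : p.Prime) {w : GaussianInt} (h : (p : GaussianInt) * w ∈ A (p * m)) :
    (p : ℤ) * w.norm = m := by
  rw [mem_A, Zsqrtd.norm_mul, norm_natCast'] at h
  have hp0 : (p:ℤ) ≠ 0 := by exact_mod_cast hp.ne_zero
  apply mul_left_cancel₀ hp0
  push_cast at h
  linear_combination h

/-- the elements of norm `p m` divisible by `p` -/
lemma div_p {p m : ℕ} (hp : p.Prime) :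
    A (p * m) ∩ {z | (p : GaussianInt) ∣ z} =
      if p ∣ m then (fun w => (p : GaussianInt) * w) '' A (m / p) else ∅ := by
  have hp0 : (p:ℤ) ≠ 0 := by exact_mod_cast hp.ne_zero
  ext z
  split_ifs with h
  · obtain ⟨k, rfl⟩ := h
    rw [Nat.mul_div_cancel_left k hp.pos]
    constructor
    · rintro ⟨hz, w, rfl⟩
      refine ⟨w, ?_, rfl⟩
      have := p_mul_norm hp hz
      rw [mem_A]
      apply mul_left_cancel₀ hp0
      rw [this]; push_cast; ring
    · rintro ⟨w, hw, rfl⟩
      refine ⟨?_, dvd_mul_right _ _⟩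
      rw [mem_A] at hw ⊢
      rw [Zsqrtd.norm_mul, norm_natCast', hw]
      push_cast; ring
  · simp only [mem_empty_iff_false, iff_false]
    rintro ⟨hz, w, rfl⟩
    have := p_mul_norm hp hz
    apply h
    have h2 : (p : ℤ) ∣ m := ⟨_, this.symm⟩
    exact_mod_cast h2

lemma A_inert {p m : ℕ} (hp : p.Prime) (h3 : p % 4 = 3) :
    (A (p * m)).ncard = if p ∣ m then (A (m / p)).ncard else 0 := by
  have : Fact p.Prime := ⟨hp⟩
  have hpr : Prime (p : GaussianInt) := GaussianInt.prime_of_nat_prime_of_mod_four_eq_three p h3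
  have hall : A (p * m) ∩ {z | (p : GaussianInt) ∣ z} = A (p * m) := by
    apply inter_eq_left.2
    intro z hz
    have h1 : z * star z = (p : GaussianInt) * m := by
      rw [mul_star_eq, mem_A.mp hz]; push_cast; ring
    have h2 : (p : GaussianInt) ∣ z * star z := by
      rw [h1]
      exact dvd_mul_right _ _
    rcases hpr.dvd_or_dvd h2 with h | h
    · exact h
    · have := dvd_star h
      rw [star_star, star_natCast] at this
      exact this
  rw [← hall, div_p hp]
  split_ifs
  · rw [img_ncard]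
    exact_mod_cast hp.ne_zero
  · simp

lemma img_A {p m : ℕ} (hp : p.Prime) {π : GaussianInt} (hn : π.norm = p) :
    (fun w => π * w) '' A m = A (p * m) ∩ {z | π ∣ z} := by
  have hp0 : (p:ℤ) ≠ 0 := by exact_mod_cast hp.ne_zero
  ext z
  constructor
  · rintro ⟨w, hw, rfl⟩
    refine ⟨?_, dvd_mul_right _ _⟩
    rw [mem_A] at hw ⊢
    rw [Zsqrtd.norm_mul, hn, hw]
    push_cast; ring
  · rintro ⟨hz, w, rfl⟩
    refine ⟨w, ?_, rfl⟩
    rw [mem_A, Zsqrtd.norm_mul, hn] at hz
    rw [mem_A]
    apply mul_left_cancel₀ hp0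
    rw [hz]; push_cast; ring

lemma A_split {p m : ℕ} (hp : p.Prime) (h1' : p % 4 = 1) :
    (A (p * m)).ncard + (if p ∣ m then (A (m / p)).ncard else 0) = 2 * (A m).ncard := by
  have : Fact p.Prime := ⟨hp⟩
  have hirr : ¬ Irreducible (p : GaussianInt) := by
    intro h
    have := (GaussianInt.prime_iff_mod_four_eq_three_of_nat_prime p).1 h.prime
    omega
  obtain ⟨a, b, hab⟩ := GaussianInt.sq_add_sq_of_nat_prime_of_not_irreducible p hirr
  set π : GaussianInt := ⟨a, b⟩ with hπdef
  have hn : π.norm = p := by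
    rw [norm_eq, hπdef]
    show (a:ℤ)^2 + (b:ℤ)^2 = p
    exact_mod_cast hab
  have hπirr : Irreducible π := by
    refine ⟨?_, ?_⟩
    · intro hu
      have := Zsqrtd.norm_eq_one_iff.mpr hu
      rw [hn] at this
      simp at this
      exact hp.one_lt.ne' this
    · intro x y hxy
      have h1 : x.norm.natAbs * y.norm.natAbs = p := by
        rw [← Int.natAbs_mul, ← Zsqrtd.norm_mul, ← hxy, hn]; simp
      rcases (Nat.dvd_prime hp).mp ⟨_, h1.symm⟩ with h | h
      · left; exact Zsqrtd.norm_eq_one_iff.mp h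
      · right
        rw [h] at h1
        have : y.norm.natAbs = 1 := by
          have hp0 := hp.pos
          nlinarith
        exact Zsqrtd.norm_eq_one_iff.mp this
  have hπ : Prime π := hπirr.prime
  have hns : (star π).norm = p := by rw [Zsqrtd.norm_conj, hn]
  have hco : ¬ π ∣ star π := by
    intro h
    have h1 : π ∣ ((2 * a : ℤ) : GaussianInt) := by
      have h2 : ((2 * a : ℤ) : GaussianInt) = π + star π := by
        rw [hπdef]
        ext
        · simp; ring
        · simp
      rw [h2]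
      exact dvd_add dvd_rfl h
    have h2 : (p:ℤ) ∣ (2 * a) * (2 * a) := by
      obtain ⟨c, hc⟩ := h1
      have := congrArg Zsqrtd.norm hc
      rw [Zsqrtd.norm_intCast, Zsqrtd.norm_mul, hn] at this
      exact ⟨_, this⟩
    have h3 : p ∣ (2 * a) * (2 * a) := by exact_mod_cast h2
    have h4 : p ∣ a := by
      rcases (Nat.Prime.dvd_mul hp).mp h3 with h | h <;>
      · rcases (Nat.Prime.dvd_mul hp).mp h with h' | h'
        · exfalso
          have := Nat.le_of_dvd (by norm_num) h'
          have h5 := hp.two_le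
          omega
        · exact h'
    have h5 : a = 0 := by
      by_contra h0
      have h6 := Nat.le_of_dvd (Nat.pos_of_ne_zero h0) h4
      have h7 := hp.two_le
      nlinarith
    rw [h5] at hab
    have h8 : b * b = p := by nlinarith
    rcases (Nat.dvd_prime hp).mp ⟨b, h8.symm⟩ with h9 | h9
    · rw [h9] at h8
      have := hp.two_le
      omega
    · rw [h9] at h8
      have := hp.two_le
      nlinarith
  have hpp : (p : GaussianInt) = π * star π := by
    rw [mul_star_eq, hn]; push_cast; rfl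
  have hunion : A (p * m) = ((fun w => π * w) '' A m) ∪ ((fun w => (star π) * w) '' A m) := by
    rw [img_A hp hn, img_A hp hns, ← inter_union_distrib_left]
    symm
    apply inter_eq_left.2
    intro z hz
    have h1 : z * star z = (p : GaussianInt) * m := by
      rw [mul_star_eq, mem_A.mp hz]; push_cast; ring
    have h2 : π ∣ z * star z := by
      rw [h1, hpp, mul_assoc]
      exact dvd_mul_right _ _
    rcases hπ.dvd_or_dvd h2 with h | h
    · left; exact h
    · right
      have := dvd_star h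
      rw [star_star] at this
      exact this
  have hinter : ((fun w => π * w) '' A m) ∩ ((fun w => (star π) * w) '' A m) =
      A (p * m) ∩ {z | (p : GaussianInt) ∣ z} := by
    rw [img_A hp hn, img_A hp hns]
    ext z
    constructor
    · rintro ⟨⟨hz, h1⟩, -, h2⟩
      refine ⟨hz, ?_⟩
      obtain ⟨c, rfl⟩ := h2
      rcases hπ.dvd_or_dvd h1 with h | h
      · exact absurd h hco
      · show (p : GaussianInt) ∣ star π * c
        rw [hpp, mul_comm π]
        exact mul_dvd_mul_left _ h
    · rintro ⟨hz, h⟩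
      have h' : (p : GaussianInt) ∣ z := h
      rw [hpp] at h'
      exact ⟨⟨hz, (dvd_mul_right _ _).trans h'⟩, hz, (dvd_mul_left _ _).trans h'⟩
  have hcard := Set.ncard_union_add_ncard_inter ((fun w => π * w) '' A m) ((fun w => (star π) * w) '' A m)
    ((A_finite m).image _) ((A_finite m).image _)
  rw [← hunion, hinter, div_p hp, img_ncard π hπ.ne_zero, img_ncard (star π) (star_prime hπ).ne_zero] at hcard
  rw [two_mul, ← hcard]
  congr 1
  split_ifs
  · rw [img_ncard]
    exact_mod_cast hp.ne_zero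
  · simp

lemma A_rec {p m : ℕ} (hp : p.Prime) :
    ((A (p * m)).ncard : ℤ) = (1 + ch p) * (A m).ncard -
      ch p * (if p ∣ m then ((A (m / p)).ncard : ℤ) else 0) := by
  rcases hp.eq_two_or_odd with rfl | hodd
  · have : ch 2 = 0 := by decide
    rw [this, A_two]; ring
  · have h4 : p % 4 = 1 ∨ p % 4 = 3 := by omega
    rcases h4 with h | h
    · have h1 : ch p = 1 := ZMod.χ₄_nat_one_mod_four h
      have h2 := A_split (m := m) hp h
      rw [h1]
      split_ifs at h2 ⊢ with hd <;> push_cast [← h2] <;> omega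
    · have h1 : ch p = -1 := ZMod.χ₄_nat_three_mod_four h
      rw [h1, A_inert hp h]
      split_ifs <;> push_cast <;> ring

theorem A_eq (n : ℕ) (hn : 1 ≤ n) : ((A n).ncard : ℤ) = 4 * SS n := by
  induction n using Nat.strong_induction_on with
  | _ n ih =>
    rcases Nat.eq_or_lt_of_le hn with h1 | h1
    · rw [← h1, A_one]
      decide
    · have hp : n.minFac.Prime := Nat.minFac_prime (by omega)
      obtain ⟨m, hm⟩ := Nat.minFac_dvd n
      set p := n.minFac with hpdef
      have hm1 : 1 ≤ m := by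
        rcases Nat.eq_zero_or_pos m with h | h
        · rw [h] at hm; omega
        · exact h
      have hlt : m < n := by
        rw [hm]
        have := hp.two_le
        nlinarith
      have e1 := ih m hlt hm1
      rw [hm, A_rec hp, SS_rec hp hm1, e1]
      split_ifs with hd
      · have hq1 : 1 ≤ m / p := Nat.div_pos (Nat.le_of_dvd (by omega) hd) hp.pos
        have hq2 : m / p < n := lt_of_le_of_lt (Nat.div_le_self m p) hlt
        rw [ih (m / p) hq2 hq1]
        ring
      · ring

lemma card_eq (n : ℕ) : Nat.card {p : ℤ × ℤ // p.1 ^ 2 + p.2 ^ 2 = (n : ℤ)} = (A n).ncard := by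
  rw [← Nat.card_coe_set_eq]
  refine Nat.card_congr
    { toFun := fun p => ⟨⟨p.1.1, p.1.2⟩, by rw [mem_A, norm_eq]; exact p.2⟩
      invFun := fun z => ⟨(z.1.re, z.1.im), by rw [← norm_eq]; exact z.2⟩
      left_inv := fun p => rfl
      right_inv := fun z => rfl }

/-- **Jacobi's two square theorem.** -/
theorem t_JAC : Pool.Agent.U581.LB.S_JAC := by
  intro n hn
  have h := A_eq n hn
  unfold Pool.Agent.U581.LB.r0 Pool.Agent.U581.LB.r2
  rw [card_eq]
  have h2 : ((A n).ncard : ℝ) = 4 * ((SS n : ℤ) : ℝ) := by exact_mod_cast h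
  rw [h2]
  unfold SS ch
  push_cast
  ring

end Pool.Agent.U688.LB
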